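import Pool.Agent.Helper50.CT.Goals

/-!
PROJECT CT, packet SLIDE.
-/

set_option autoImplicit false

namespace Pool.Agent.Helper95.CT

open Pool.Agent.Helper50.CT

theorem goalSLIDE (hCX : StmtCX) : StmtSLIDE := by
  classical
  intro κ hκ Y _ hG hC o x a ρ σ J S hox ha1 hρ haρ hσ hσρ hJ hS hsep
  have ha : 0 < a := by linarith
  -- the points on the shortest paths
  have hpath : ∀ (z : Y) (l : ℝ), 0 ≤ l → l ≤ 1 →
      ∃ z' : Y, dist o z' = l * dist o z ∧ dist z' z = (1 - l) * dist o z := by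
    intro z l h0 h1
    obtain ⟨c, hc0, hc1, hc⟩ := hG o z
    have hd : 0 ≤ dist o z := dist_nonneg
    have m0 : (0 : ℝ) ∈ Set.Icc 0 (dist o z) := ⟨le_rfl, hd⟩
    have m1 : dist o z ∈ Set.Icc 0 (dist o z) := ⟨hd, le_rfl⟩
    have ml : l * dist o z ∈ Set.Icc 0 (dist o z) :=
      ⟨mul_nonneg h0 hd, mul_le_of_le_one_left hd h1⟩
    refine ⟨c (l * dist o z), ?_, ?_⟩
    · have h := hc 0 m0 _ ml
      rw [hc0] at h
      rw [h, zero_sub, abs_neg, abs_of_nonneg ml.1]
    · have h := hc _ ml _ m1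
      rw [hc1] at h
      rw [h, abs_of_nonpos (by linarith [ml.2])]
      ring
  -- the ratios
  set l : ℕ → ℝ := fun j => 1 - 3 * j * ρ / a with hl
  have hl1 : ∀ j, l j ≤ 1 := by
    intro j
    have : 0 ≤ 3 * (j : ℝ) * ρ / a := by positivity
    simp only [hl]
    linarith
  have hl2 : ∀ j, j < J → 3 / 4 ≤ l j := by
    intro j hj
    have h1 : (j : ℝ) ≤ (J : ℝ) - 1 := by
      have : (j : ℝ) + 1 ≤ J := by exact_mod_cast hj
      linarith
    have h2 : 3 * (j : ℝ) * ρ ≤ a / 4 := by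
      have h3 : 3 * (j : ℝ) * ρ ≤ 3 * ((J : ℝ) - 1) * ρ :=
        mul_le_mul_of_nonneg_right (by linarith) hρ.le
      linarith
    have h3 : 3 * (j : ℝ) * ρ / a ≤ 1 / 4 := by
      rw [div_le_iff₀ ha]
      linarith
    simp only [hl]
    linarith
  have hla : ∀ j, l j * a = a - 3 * j * ρ := by
    intro j
    simp only [hl]
    field_simp
  have hch : ∀ (j : ℕ) (z : Y), ∃ z' : Y, j < J →
      dist o z' = l j * dist o z ∧ dist z' z = (1 - l j) * dist o z := by
    intro j z
    by_cases h : j < J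
    · obtain ⟨z', h1, h2⟩ := hpath z (l j) (by linarith [hl2 j h]) (hl1 j)
      exact ⟨z', fun _ => ⟨h1, h2⟩⟩
    · exact ⟨z, fun h' => absurd h' h⟩
  choose f hf using hch
  have hoz : ∀ z ∈ S, a - ρ ≤ dist o z ∧ dist o z ≤ a + ρ := by
    intro z hz
    have h1 := hS z hz
    have h2 := dist_triangle o z x
    have h3 := dist_triangle o x z
    rw [dist_comm x z] at h3
    rw [hox] at h2 h3
    exact ⟨by linarith, by linarith⟩
  -- different ratios
  have hdiff : ∀ (j i : ℕ) (z w : Y), j < J → i < J → z ∈ S → w ∈ S → j < i →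
      σ ≤ dist (f j z) (f i w) := by
    intro j i z w hj hi hz hw hji
    have h1 := (hf j z hj).1
    have h2 := (hf i w hi).1
    have h3 := dist_triangle o (f i w) (f j z)
    rw [dist_comm (f i w) (f j z)] at h3
    have h4 : l j * (a - ρ) ≤ l j * dist o z :=
      mul_le_mul_of_nonneg_left (hoz z hz).1 (by linarith [hl2 j hj])
    have h5 : l i * dist o w ≤ l i * (a + ρ) :=
      mul_le_mul_of_nonneg_left (hoz w hw).2 (by linarith [hl2 i hi])
    have h6 : l j * ρ ≤ ρ := mul_le_of_le_one_left hρ.le (hl1 j)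
    have h7 : l i * ρ ≤ ρ := mul_le_of_le_one_left hρ.le (hl1 i)
    have h8 := hla j
    have h9 := hla i
    have h10 : 3 * (j : ℝ) * ρ + 3 * ρ ≤ 3 * (i : ℝ) * ρ := by
      have : (j : ℝ) + 1 ≤ i := by exact_mod_cast hji
      have h11 : 3 * ((j : ℝ) + 1) * ρ ≤ 3 * (i : ℝ) * ρ :=
        mul_le_mul_of_nonneg_right (by linarith) hρ.le
      linarith
    have e1 : l j * (a - ρ) = l j * a - l j * ρ := by ring
    have e2 : l i * (a + ρ) = l i * a + l i * ρ := by ring
    linarith
  -- the same ratio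
  have hsame : ∀ (j : ℕ) (z w : Y), j < J → z ∈ S → w ∈ S → z ≠ w →
      3 / 8 * σ ≤ dist (f j z) (f j w) := by
    intro j z w hj hz hw hzw
    have hb : ∀ u ∈ S, κ * dist o u ≤ 11 / 10 := by
      intro u hu
      have h1 := (hoz u hu).2
      have h2 : κ * dist o u ≤ κ * (a + a / 16) :=
        mul_le_mul_of_nonneg_left (by linarith) hκ.le
      have h3 : κ * (a + a / 16) = 17 / 16 * (κ * a) := by ring
      linarith
    have h1 := hCX κ hκ Y hC o z w (f j z) (f j w) (l j) (by linarith [hl2 j hj]) (hl1 j)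
      (hb z hz) (hb w hw) (hf j z hj).1 (hf j z hj).2 (hf j w hj).1 (hf j w hj).2
    have h2 := hsep z hz w hw hzw
    have h3 : 3 / 4 / 2 * σ ≤ l j / 2 * dist z w :=
      mul_le_mul (by linarith [hl2 j hj]) h2 hσ.le (by linarith [hl2 j hj])
    linarith
  have hkey : ∀ p ∈ (Finset.range J ×ˢ S), ∀ q ∈ (Finset.range J ×ˢ S), p ≠ q →
      3 / 8 * σ ≤ dist (f p.1 p.2) (f q.1 q.2) := by
    rintro ⟨j, z⟩ hp ⟨i, w⟩ hq hne
    rw [Finset.mem_product, Finset.mem_range] at hp hq
    obtain ⟨hj, hz⟩ := hp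
    obtain ⟨hi, hw⟩ := hq
    simp only at hj hz hi hw ⊢
    rcases lt_trichotomy j i with h | h | h
    · have := hdiff j i z w hj hi hz hw h
      linarith
    · subst h
      exact hsame j z w hj hz hw (fun h => hne (by rw [h]))
    · have := hdiff i j w z hi hj hw hz h
      rw [dist_comm] at this
      linarith
  refine ⟨(Finset.range J ×ˢ S).image (fun p => f p.1 p.2), ?_, ?_, ?_⟩
  · intro y hy
    rw [Finset.mem_image] at hy
    obtain ⟨⟨j, z⟩, hp, rfl⟩ := hy
    rw [Finset.mem_product, Finset.mem_range] at hp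
    obtain ⟨hj, hz⟩ := hp
    simp only at hj hz ⊢
    have h1 := dist_triangle (f j z) z x
    have h2 := (hf j z hj).2
    have h3 : (1 - l j) * dist o z ≤ 1 / 4 * (a + ρ) :=
      mul_le_mul (by linarith [hl2 j hj]) (hoz z hz).2 dist_nonneg (by norm_num)
    have h4 := hS z hz
    linarith
  · intro y hy y' hy' hne
    rw [Finset.mem_image] at hy hy'
    obtain ⟨p, hp, rfl⟩ := hy
    obtain ⟨q, hq, rfl⟩ := hy'
    exact hkey p hp q hq (fun h => hne (by rw [h]))
  · rw [Finset.card_image_of_injOn, Finset.card_product, Finset.card_range]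
    intro p hp q hq hpq
    by_contra hne
    have h1 := hkey p hp q hq hne
    simp only at hpq
    rw [hpq, dist_self] at h1
    linarith

end Pool.Agent.Helper95.CT
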